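import Pool.Agent.Q138.PS.XW
import Pool.Agent.Q138.PS.WI
import Pool.Agent.Q138.PS.WA
import Pool.Agent.Q138.PS.WJ
import Pool.Agent.Q138.AJ.R90c6bd

/-!
# Linear forms in logarithms of almost all rational numbers whose denominator is close to a power of a real number

Let `s_1, …, s_m` be distinct rational numbers `≥ 0` (for instance `m = 1`, `s_1 = 0`) and `X = n m`. Let
`β > 2 - 2 / (X + 1)`, `0 ≤ δ ≤ 1` and `l < 1`. There is a set `Z` of real numbers of Hausdorff dimension at most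
`(β - 1 + δ) / (1 - l)` such that every real `α > 1` outside `Z` has the following property. For all `A` and `0 < a < b` there is
`B` such that for all real algebraic `c > 0`, all integers `j`, all real `D` and all large `N`, for EVERY integer `q` with
`|q - c N ^ j α ^ N| ≤ D (c N ^ j α ^ N) ^ l`: all but at most `q ^ (2 n - 1 - δ)` of the `n`-tuples of rational numbers
`x_j` in `[a, b]` with largest denominator `q` satisfy `|∑ c_ji log (x_j + s_i)| > q ^ (-B)` for all integers `c_ji`, not all zero,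
of absolute value at most `q ^ A`.

There are about `q ^ (2 n - 1)` such tuples. For `δ + l < 2 / (X + 1)` one can take `β` such that the dimension is smaller than
`1`, so that almost every `α > 1` has the property. For `n = 1` these are the fractions `p / q` in lowest terms.
-/

set_option autoImplicit false

namespace Pool.Agent.Results.MP_90c6bd_nt.HeightsNearPowers

open Filter  Pool.Agent.Q138.PS Pool.Agent.Q138.AJ.R90c6bd

/-- the largest denominator -/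
def largest {n : ℕ} (x : Fin n → ℚ) : ℕ := Finset.univ.sup fun j => (x j).den

theorem mono {m n : ℕ} {s : Fin m → ℚ} {a b A B T T' : ℝ} (h1 : max 1 (2 ^ max B 0) ≤ T) (h2 : T ≤ T')
    (h3 : T' ≤ 2 * T) : Exceptional n s a b A (max B 0 + 1) T ⊆ Exceptional n s a b (max A 0) B T' := by
  have h4 : 1 ≤ T := (le_max_left _ _).trans h1
  rintro q ⟨hq, c, hc0, hc, hv⟩
  exact ⟨fun j => ⟨(hq j).1, (hq j).2.1, (hq j).2.2.trans h2⟩, c, hc0, fun j i => (hc j i).trans (num_coeff h4 h2),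
    hv.trans (num_value h4 ((le_max_right _ _).trans h1) h2 h3)⟩

theorem mono2 {m n : ℕ} {s : Fin m → ℚ} {a b a' b' A A' B T : ℝ} (ha : a' ≤ a) (hb : b ≤ b') (hA : A ≤ A')
    (hT : 1 ≤ T) : Exceptional n s a b A B T ⊆ Exceptional n s a' b' A' B T := by
  rintro q ⟨hq, c, hc0, hc, hv⟩
  exact ⟨fun j => ⟨ha.trans (hq j).1, (hq j).2.1.trans hb, (hq j).2.2⟩, c, hc0,
    fun j i => (hc j i).trans (Real.rpow_le_rpow_of_exponent_le hT hA), hv⟩

/-- **Theorem.** -/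
theorem result {m : ℕ} (n : ℕ) (hn : 1 ≤ n) (hm : 1 ≤ m) (s : Fin m → ℚ) (hs : Function.Injective s) (hs0 : ∀ i, 0 ≤ s i)
    (β δ l : ℝ) (hβ : 2 - 2 / (((n : ℝ) * m) + 1) < β) (hδ : 0 ≤ δ) (hδ1 : δ ≤ 1) (hl : l < 1) :
    ∃ Z : Set ℝ, dimH Z ≤ ENNReal.ofReal ((β - 1 + δ) / (1 - l)) ∧ ∀ α : ℝ, 1 < α → α ∉ Z →
      ∀ (A a b : ℝ), 0 < a → a < b → ∃ B : ℝ, ∀ c : ℝ, 0 < c → IsAlgebraic ℚ c → ∀ (j : ℤ) (D : ℝ), ∀ᶠ N : ℕ in atTop,
        ∀ q : ℕ, 1 ≤ q → NearPow α c j D l N q →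
          (({x | x ∈ Exceptional n s a b A B q ∧ largest x = q}.ncard : ℕ) : ℝ) ≤ (q : ℝ) ^ (2 * (n : ℝ) - 1 - δ) := by
  have hn' : (1 : ℝ) ≤ n := by exact_mod_cast hn
  have hm' : (1 : ℝ) ≤ m := by exact_mod_cast hm
  have hβ1 : 1 < β := by
    refine lt_of_le_of_lt ?_ hβ
    have h1 : (1 : ℝ) ≤ (n : ℝ) * m := by nlinarith
    have h2 : 2 / ((n : ℝ) * m + 1) ≤ 1 := by rw [div_le_one (by linarith)]; linarith
    linarith
  have key : ∀ i : ℕ × {i : ℚ × ℚ // 0 < (i.1 : ℝ) ∧ (i.1 : ℝ) < (i.2 : ℝ)}, ∃ B : ℝ, (∃ C : ℝ, ∀ Y : ℕ, 1 ≤ Y →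
      cn (fun q => (q : ℝ) ^ (2 * (n : ℝ) - 1 - δ) ≤
        (({x | x ∈ Exceptional n s (i.2.1.1 : ℝ) (i.2.1.2 : ℝ) (i.1 : ℝ) B q ∧ largest x = q}.ncard : ℕ) : ℝ)) Y ≤
          C * (Y : ℝ) ^ (β - 1 + δ)) ∧
      ∀ T : ℝ, 1 ≤ T → (Exceptional n s (i.2.1.1 : ℝ) (i.2.1.2 : ℝ) (i.1 : ℝ) B T).Finite := by
    rintro ⟨A, ⟨⟨a, b⟩, hab⟩⟩
    obtain ⟨B, C, h⟩ := Pool.Agent.Q138.AJ.R90c6bd.result n m hn hm s hs hs0 (a : ℝ) (b : ℝ) hab.1 hab.2 (max (A : ℝ) 0) β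
      (le_max_right _ _) hβ
    obtain ⟨C', hC'⟩ := heavy_few (A := Fin n → ℚ) largest (fun T => Exceptional n s (a : ℝ) (b : ℝ) (A : ℝ) (max B 0 + 1) T)
      (fun T => Exceptional n s (a : ℝ) (b : ℝ) (max (A : ℝ) 0) B T) (2 * ((n : ℝ) - 1) + β) (2 * (n : ℝ) - 1 - δ) C
      (max 1 (2 ^ max B 0)) (by linarith) (by linarith) h fun T T' h1 h2 h3 => mono h1 h2 h3
    refine ⟨max B 0 + 1, ⟨C', fun Y hY => (hC' Y hY).trans (le_of_eq ?_)⟩, fun T hT => ?_⟩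
    · congr 2
      ring
    · refine (h T hT).1.subset ?_
      rintro q ⟨hq, c, hc0, hc, hv⟩
      refine ⟨hq, c, hc0, fun j i => (hc j i).trans (num_coeff hT le_rfl), hv.trans ?_⟩
      refine Real.rpow_le_rpow_of_exponent_le hT ?_
      have := le_max_left B 0
      linarith
  choose B hC hfin using key
  obtain ⟨Z, hZ, hz⟩ := pow_cn (fun (i : ℕ × {i : ℚ × ℚ // 0 < (i.1 : ℝ) ∧ (i.1 : ℝ) < (i.2 : ℝ)}) q =>
    (q : ℝ) ^ (2 * (n : ℝ) - 1 - δ) ≤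
      (({x | x ∈ Exceptional n s (i.2.1.1 : ℝ) (i.2.1.2 : ℝ) (i.1 : ℝ) (B i) q ∧ largest x = q}.ncard : ℕ) : ℝ))
    (β - 1 + δ) l (by linarith) hl hC
  refine ⟨Z, hZ, fun α hα hαZ A a b ha hab => ?_⟩
  obtain ⟨i, hi1, hi2⟩ := ends_pos ha hab
  refine ⟨B (⌈A⌉₊, i), fun c hc hca j D => ?_⟩
  filter_upwards [hz α hα hαZ (⌈A⌉₊, i) c hc hca j D] with N hN q hq hnear
  have h1 := (not_le.1 (hN q hq hnear)).le
  refine le_trans ?_ h1
  have hq1 : (1 : ℝ) ≤ q := by exact_mod_cast hq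
  refine (Nat.cast_le (α := ℝ)).2 (Set.ncard_le_ncard (fun x hx => ⟨mono2 hi1 hi2 (Nat.le_ceil A) hq1 hx.1, hx.2⟩) ?_)
  exact (hfin (⌈A⌉₊, i) q hq1).subset fun x hx => hx.1

end Pool.Agent.Results.MP_90c6bd_nt.HeightsNearPowers
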