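import Pool.Agent.Q138.PS.WI
import Pool.Agent.Q138.PS.WA
import Pool.Agent.Q138.PS.WJ
import Pool.Agent.Q138.AJ.R90c6bd

/-!
# Linear forms in the logarithms of the rational numbers close to given real numbers

Let `s_1, …, s_m` be distinct rational numbers `≥ 0` (for instance `m = 1`, `s_1 = 0`). An `n`-tuple `q` of rational numbers in
`[a, b] ⊂ (0, ∞)` with denominators at most `T` is exceptional (for `A`, `B`) if there are integers `c_ji`, not all zero and of
absolute value at most `T ^ A`, with `|∑ c_ji log (q_j + s_i)| ≤ T ^ (-B)`. So for the tuples which are not exceptional the linear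
forms in logarithms have lower bounds which are polynomial in the heights of the numbers and of the coefficients, as in the
conjecture of Lang. We show that only the points `z` of a small set have exceptional tuples among their good approximations.


* For given `n`, `A`, `[a, b]` and `β` there is `B` such that for all `θ > 0`, outside a set of `z ∈ ℝ^n` of Hausdorff
  dimension at most `(2 (n - 1) + β) / θ`, for all large `T` no exceptional tuple with denominators at most `T` satisfies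
  `|q_j - z_j| ≤ T ^ (-θ)` for all `j`. Here `β` is any number larger than `2 - 2 / (n m + 1)`, so that the dimension is
  smaller than `n` for `θ` close to `2`; and for `θ < 2` almost every `z` has approximations `q` of this quality for all large `T`.
* Outside a set of Hausdorff dimension ZERO every `z ∈ ℝ^n` has the property that for all `n`, `A` and `[a, b]` there are `B`
  and `θ` such that for all large `T` no exceptional tuple with denominators at most `T` satisfies `|q_j - z_j| ≤ T ^ (-θ)` for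
  all `j`.
-/

set_option autoImplicit false

namespace Pool.Agent.Results.MP_90c6bd_nt.LogarithmsNearGivenPoints

open Filter  Pool.Agent.Q138.PS Pool.Agent.Q138.AJ.R90c6bd

theorem mono {m n : ℕ} {s : Fin m → ℚ} {a b A B T T' : ℝ} (h1 : max 1 (2 ^ max B 0) ≤ T) (h2 : T ≤ T')
    (h3 : T' ≤ 2 * T) : Exceptional n s a b A (max B 0 + 1) T ⊆ Exceptional n s a b (max A 0) B T' := by
  have h4 : 1 ≤ T := (le_max_left _ _).trans h1
  rintro q ⟨hq, c, hc0, hc, hv⟩
  exact ⟨fun j => ⟨(hq j).1, (hq j).2.1, (hq j).2.2.trans h2⟩, c, hc0, fun j i => (hc j i).trans (num_coeff h4 h2),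
    hv.trans (num_value h4 ((le_max_right _ _).trans h1) h2 h3)⟩

theorem mono2 {m n : ℕ} {s : Fin m → ℚ} {a b a' b' A A' B T : ℝ} (ha : a' ≤ a) (hb : b ≤ b') (hA : A ≤ A')
    (hT : 1 ≤ T) : Exceptional n s a b A B T ⊆ Exceptional n s a' b' A' B T := by
  rintro q ⟨hq, c, hc0, hc, hv⟩
  exact ⟨fun j => ⟨ha.trans (hq j).1, (hq j).2.1.trans hb, (hq j).2.2⟩, c, hc0,
    fun j i => (hc j i).trans (Real.rpow_le_rpow_of_exponent_le hT hA), hv⟩

/-- **Theorem.** -/
theorem result {m : ℕ} (n : ℕ) (hn : 1 ≤ n) (hm : 1 ≤ m) (s : Fin m → ℚ) (hs : Function.Injective s) (hs0 : ∀ i, 0 ≤ s i) :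
    (∀ (A a b β : ℝ), 0 < a → a < b → 2 - 2 / (((n : ℝ) * m) + 1) < β → ∃ B : ℝ, ∀ θ : ℝ, 0 < θ →
      ∃ Z : Set (Fin n → ℝ), dimH Z ≤ ENNReal.ofReal ((2 * ((n : ℝ) - 1) + β) / θ) ∧ ∀ z, z ∉ Z → ∀ᶠ T : ℝ in atTop,
        ∀ q ∈ Exceptional n s a b A B T, ∃ j, T ^ (-θ) < |(q j : ℝ) - z j|) ∧
    ∃ Z : Set (Fin n → ℝ), dimH Z = 0 ∧ ∀ z, z ∉ Z → ∀ (A a b : ℝ), 0 < a → a < b → ∃ B θ : ℝ, 0 < θ ∧
      ∀ᶠ T : ℝ in atTop, ∀ q ∈ Exceptional n s a b A B T, ∃ j, T ^ (-θ) < |(q j : ℝ) - z j| := by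
  constructor
  · intro A a b β ha hab hβ
    obtain ⟨B, C, h⟩ := Pool.Agent.Q138.AJ.R90c6bd.result n m hn hm s hs hs0 a b ha hab (max A 0) β (le_max_right _ _) hβ
    exact ⟨max B 0 + 1, fun θ hθ => far_rat (fun T => Exceptional n s a b A (max B 0 + 1) T)
      (fun T => Exceptional n s a b (max A 0) B T) θ _ C 1 (max 1 (2 ^ max B 0)) hθ
      (dim_nonneg hn (beta_nonneg (by positivity) hβ)) h fun T T' h1 h2 h3 => mono h1 h2 h3⟩
  · obtain ⟨Z, hZ, hz⟩ := zero_rat (n := n) (J := ℕ × {i : ℚ × ℚ // 0 < (i.1 : ℝ) ∧ (i.1 : ℝ) < (i.2 : ℝ)})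
      (fun i B T => Exceptional n s (i.2.1.1 : ℝ) (i.2.1.2 : ℝ) (i.1 : ℝ) B T) (by
        rintro ⟨A, ⟨⟨a, b⟩, hab⟩⟩
        obtain ⟨B, C, h⟩ := Pool.Agent.Q138.AJ.R90c6bd.result n m hn hm s hs hs0 (a : ℝ) (b : ℝ) hab.1 hab.2 (max (A : ℝ) 0) (2 : ℝ) (le_max_right _ _) (two_beta (by positivity))
        exact ⟨max B 0 + 1, fun T => Exceptional n s a b (max (A : ℝ) 0) B T, _, C, 1, max 1 (2 ^ max B 0),
          dim_nonneg hn (by norm_num : (0 : ℝ) ≤ 2), h, fun T T' h1 h2 h3 => mono h1 h2 h3⟩)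
    refine ⟨Z, hZ, fun z hzZ A a b ha hab => ?_⟩
    obtain ⟨i, hi1, hi2⟩ := ends_pos ha hab
    obtain ⟨B, θ, hθ, h⟩ := hz z hzZ (⌈A⌉₊, i)
    refine ⟨B, θ, hθ, ?_⟩
    filter_upwards [h, eventually_ge_atTop 1] with T hT hT1
    exact fun q hq => hT q (mono2 hi1 hi2 (Nat.le_ceil A) hT1 hq)

end Pool.Agent.Results.MP_90c6bd_nt.LogarithmsNearGivenPoints
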