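import Pool.Agent.Q138.PS.WI
import Pool.Agent.Q138.PS.WA
import Pool.Agent.Q138.PS.WJ
import Pool.Agent.Q138.AJ.R90c6bdA

/-!
# Lang's lower bound in its sharp form for the rational numbers close to given real numbers

The conjecture: `|Λ| > C(ε)^n B / ∏ (B_j A_j²)^(1+ε)` for `Λ = b_1 log a_1 + ⋯ + b_n log a_n ≠ 0`, `B_j = max (|b_j|, 1)`, `A_j` the
height of the positive rational number `a_j`, `B = max B_j`. We consider the sharp form with `ε = 0` and the constant `1/8`: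

  `|Λ| > (1/8) B / ∏ B_j A_j²`   for ALL integers `b_j`, not all zero, with `|b_j| ≤ T ^ κ`,       (*)

in particular the `log a_j` satisfy no relation with such coefficients. The starting result says that it holds for almost all
tuples `a` of height at most `T`. We show that only the points `z` of a small set have exceptional tuples among their good
approximations.

* Let `κ ≥ 0`, `ε > 0` and `θ > 0`. Outside a set of `z ∈ ℝ^n` of Hausdorff dimension at most `(2 (n - 1) + n κ + ε) / θ`, for all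
  large `T` the inequality (*) holds for ALL tuples `a` of positive rational numbers of heights at most `T` with
  `|a_j - z_j| ≤ T ^ (-θ)` for all `j`. The dimension is smaller than `n` if `κ < 2 / n` and `θ < 2` is close to `2`, and for `θ < 2` almost
  every `z` has approximations of this quality for all large `T`.
* Outside a set of Hausdorff dimension ZERO every `z ∈ ℝ^n` has the property that for all `κ` there is `θ` such that for all large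
  `T` this holds.
-/

set_option autoImplicit false

namespace Pool.Agent.Results.MP_90c6bd_nt.SharpFormNearGivenPoints

open Filter Pool.Agent.Q138.PS Pool.Agent.Q138.AJ.R90c6bdA

/-- the tuples of positive rational numbers of height at most `T` for which the inequality fails for some coefficients
`b`, not all zero, with `|b_j| ≤ T ^ κ` -/
def Fails (n : ℕ) (κ T : ℝ) : Set (Fin n → ℚ) :=
  {a | (∀ j, 0 < a j ∧ ((hgt (a j) : ℕ) : ℝ) ≤ T) ∧ ∃ b : Fin n → ℤ, b ≠ 0 ∧ (∀ j, |((b j : ℤ) : ℝ)| ≤ T ^ κ) ∧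
    |Lam a b| ≤ 1 / 8 * (maxB b : ℝ) / (prodBA a b : ℝ)}

theorem sub {n : ℕ} {κ κ' T T' : ℝ} (hκ : κ ≤ κ') (hκ' : 0 ≤ κ') (h1 : 1 ≤ T) (h2 : T ≤ T') :
    Fails n κ T ⊆ Exceptional n ⌊T'⌋₊ ⌊T' ^ κ'⌋₊ 0 := by
  rintro a ⟨ha, b, hb, hbT, hL⟩
  have h3 : T ^ κ ≤ T' ^ κ' := (Real.rpow_le_rpow_of_exponent_le h1 hκ).trans (Real.rpow_le_rpow (by linarith) h2 hκ')
  refine ⟨fun j => ⟨(ha j).1, Nat.le_floor ((ha j).2.trans h2)⟩, b, hb, fun j => ?_, ?_⟩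
  · refine Nat.le_floor ?_
    rw [Nat.cast_natAbs]
    push_cast
    exact (hbT j).trans h3
  · rw [add_zero, Real.rpow_one]
    exact hL

theorem rats_card (A : ℕ) : (Rats A).ncard ≤ A * A := by
  rw [← coe_RF, Set.ncard_coe_finset]
  unfold RF
  refine (Finset.card_filter_le _ _).trans (Finset.card_image_le.trans ?_)
  rw [Finset.card_product, Nat.card_Icc, Nat.add_sub_cancel]

theorem count (n : ℕ) (hn : 1 ≤ n) (κ ε : ℝ) (hκ : 0 ≤ κ) (hε : 0 < ε) : ∃ C : ℝ, ∀ T : ℝ, 1 ≤ T →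
    (Exceptional n ⌊T⌋₊ ⌊T ^ κ⌋₊ 0).Finite ∧
      ((Exceptional n ⌊T⌋₊ ⌊T ^ κ⌋₊ 0).ncard : ℝ) ≤ C * T ^ (2 * ((n : ℝ) - 1) + (n * κ + ε)) := by
  refine ⟨3 ^ n * (2 + 2 / ε), fun T hT => ?_⟩
  have hT0 : 0 < T := by linarith
  obtain ⟨-, h1, h2⟩ := Pool.Agent.Q138.AJ.R90c6bdA.result n ⌊T⌋₊ ⌊T ^ κ⌋₊ hn 0 le_rfl
  refine ⟨h1, ?_⟩
  have hκ1 : 1 ≤ T ^ κ := Real.one_le_rpow hT hκ
  have hε1 : 1 ≤ T ^ ε := Real.one_le_rpow hT hε.le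
  have e1 : ((2 * ⌊T ^ κ⌋₊ + 1 : ℕ) : ℝ) ≤ 3 * T ^ κ := by
    have := Nat.floor_le (show 0 ≤ T ^ κ by positivity)
    push_cast
    linarith
  have e2 : (((Nat.log 2 ⌊T⌋₊ + 1 : ℕ)) : ℝ) ≤ (2 + 2 / ε) * T ^ ε := by
    have h3 : (Nat.log 2 ⌊T⌋₊ : ℝ) ≤ Real.logb 2 T := by
      have h4 : (2 : ℝ) ^ (Nat.log 2 ⌊T⌋₊) ≤ T := by
        have h5 : 2 ^ Nat.log 2 ⌊T⌋₊ ≤ ⌊T⌋₊ := Nat.pow_log_le_self 2 (Nat.floor_pos.2 hT).ne'
        have h6 : ((2 ^ Nat.log 2 ⌊T⌋₊ : ℕ) : ℝ) ≤ (⌊T⌋₊ : ℝ) := by exact_mod_cast h5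
        push_cast at h6
        exact h6.trans (Nat.floor_le hT0.le)
      rw [Real.le_logb_iff_rpow_le (by norm_num) hT0, Real.rpow_natCast]
      exact h4
    have h7 : Real.logb 2 T ≤ 2 * Real.log T := by
      rw [Real.logb, div_le_iff₀ (Real.log_pos (by norm_num))]
      have h8 : (1 : ℝ) / 2 ≤ Real.log 2 := by
        have := Real.log_two_gt_d9
        linarith
      have h9 : 0 ≤ Real.log T := Real.log_nonneg hT
      nlinarith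
    have h10 : Real.log T ≤ T ^ ε / ε := Real.log_le_rpow_div hT0.le hε
    push_cast
    have : (2 : ℝ) * (T ^ ε / ε) = 2 / ε * T ^ ε := by ring
    nlinarith
  have e3 : ((Rats ⌊T⌋₊).ncard : ℝ) ≤ T ^ (2 : ℝ) := by
    have h3 := rats_card ⌊T⌋₊
    have h4 : ((Rats ⌊T⌋₊).ncard : ℝ) ≤ (⌊T⌋₊ : ℝ) * ⌊T⌋₊ := by exact_mod_cast h3
    have h5 := Nat.floor_le hT0.le
    have h6 : (0 : ℝ) ≤ ⌊T⌋₊ := Nat.cast_nonneg _
    rw [Real.rpow_two]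
    nlinarith
  have h3 : ((Exceptional n ⌊T⌋₊ ⌊T ^ κ⌋₊ 0).ncard : ℝ) ≤
      ((2 * ⌊T ^ κ⌋₊ + 1 : ℕ) : ℝ) ^ n * ((((Nat.log 2 ⌊T⌋₊ + 1 : ℕ)) : ℝ) * ((Rats ⌊T⌋₊).ncard : ℝ) ^ (n - 1)) := by
    exact_mod_cast h2
  refine h3.trans ?_
  have e4 : ((n - 1 : ℕ) : ℝ) = (n : ℝ) - 1 := by
    push_cast [hn]
    ring
  calc ((2 * ⌊T ^ κ⌋₊ + 1 : ℕ) : ℝ) ^ n * ((((Nat.log 2 ⌊T⌋₊ + 1 : ℕ)) : ℝ) * ((Rats ⌊T⌋₊).ncard : ℝ) ^ (n - 1))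
      ≤ (3 * T ^ κ) ^ n * (((2 + 2 / ε) * T ^ ε) * (T ^ (2 : ℝ)) ^ (n - 1)) := by gcongr
    _ = 3 ^ n * (2 + 2 / ε) * T ^ (2 * ((n : ℝ) - 1) + (n * κ + ε)) := by
      rw [mul_pow, ← Real.rpow_natCast (T ^ κ) n, ← Real.rpow_mul hT0.le, ← Real.rpow_natCast (T ^ (2 : ℝ)) (n - 1),
        ← Real.rpow_mul hT0.le, e4, Real.rpow_add hT0, Real.rpow_add hT0, mul_comm κ (n : ℝ)]
      ring

/-- **Theorem.** -/
theorem result (n : ℕ) (hn : 1 ≤ n) :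
    (∀ κ ε θ : ℝ, 0 ≤ κ → 0 < ε → 0 < θ →
      ∃ Z : Set (Fin n → ℝ), dimH Z ≤ ENNReal.ofReal ((2 * ((n : ℝ) - 1) + (n * κ + ε)) / θ) ∧ ∀ z, z ∉ Z → ∀ᶠ T : ℝ in atTop,
        ∀ a : Fin n → ℚ, (∀ j, 0 < a j ∧ ((hgt (a j) : ℕ) : ℝ) ≤ T ∧ |(a j : ℝ) - z j| ≤ T ^ (-θ)) →
          ∀ b : Fin n → ℤ, b ≠ 0 → (∀ j, |((b j : ℤ) : ℝ)| ≤ T ^ κ) →
            1 / 8 * (maxB b : ℝ) / (prodBA a b : ℝ) < |Lam a b|) ∧
    ∃ Z : Set (Fin n → ℝ), dimH Z = 0 ∧ ∀ z, z ∉ Z → ∀ κ : ℝ, ∃ θ : ℝ, 0 < θ ∧ ∀ᶠ T : ℝ in atTop,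
        ∀ a : Fin n → ℚ, (∀ j, 0 < a j ∧ ((hgt (a j) : ℕ) : ℝ) ≤ T ∧ |(a j : ℝ) - z j| ≤ T ^ (-θ)) →
          ∀ b : Fin n → ℤ, b ≠ 0 → (∀ j, |((b j : ℤ) : ℝ)| ≤ T ^ κ) →
            1 / 8 * (maxB b : ℝ) / (prodBA a b : ℝ) < |Lam a b| := by
  have key : ∀ (κ θ : ℝ) (z : Fin n → ℝ) (T : ℝ), (∀ a ∈ Fails n κ T, ∃ j, T ^ (-θ) < |(a j : ℝ) - z j|) →
      ∀ a : Fin n → ℚ, (∀ j, 0 < a j ∧ ((hgt (a j) : ℕ) : ℝ) ≤ T ∧ |(a j : ℝ) - z j| ≤ T ^ (-θ)) →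
          ∀ b : Fin n → ℤ, b ≠ 0 → (∀ j, |((b j : ℤ) : ℝ)| ≤ T ^ κ) →
            1 / 8 * (maxB b : ℝ) / (prodBA a b : ℝ) < |Lam a b| := by
    intro κ θ z T h a ha b hb hbT
    by_contra hcon
    obtain ⟨j, hj⟩ := h a ⟨fun j => ⟨(ha j).1, (ha j).2.1⟩, b, hb, hbT, not_lt.1 hcon⟩
    exact absurd (ha j).2.2 (not_le.2 hj)
  constructor
  · intro κ ε θ hκ hε hθ
    obtain ⟨C, h⟩ := count n hn κ ε hκ hε
    obtain ⟨Z, hZ, hz⟩ := far_rat (fun T => Fails n κ T) (fun T => Exceptional n ⌊T⌋₊ ⌊T ^ κ⌋₊ 0) θ _ C 1 1 hθ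
      (dim_nonneg hn (by positivity)) h fun T T' h1 h2 h3 => sub le_rfl hκ h1 h2
    refine ⟨Z, hZ, fun z hzZ => ?_⟩
    filter_upwards [hz z hzZ] with T hT
    exact key κ θ z T hT
  · obtain ⟨Z, hZ, hz⟩ := zero_rat (n := n) (J := ℕ) (fun k _ T => Fails n (k : ℝ) T) (by
        intro k
        obtain ⟨C, h⟩ := count n hn (k : ℝ) 1 (by positivity) one_pos
        exact ⟨0, fun T => Exceptional n ⌊T⌋₊ ⌊T ^ (k : ℝ)⌋₊ 0, _, C, 1, 1, dim_nonneg hn (by positivity), h,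
          fun T T' h1 h2 h3 => sub le_rfl (by positivity) h1 h2⟩)
    refine ⟨Z, hZ, fun z hzZ κ => ?_⟩
    obtain ⟨-, θ, hθ, h⟩ := hz z hzZ ⌈κ⌉₊
    refine ⟨θ, hθ, ?_⟩
    filter_upwards [h, eventually_ge_atTop 1] with T hT hT1
    intro a ha b hb hbT
    exact key _ θ z T hT a ha b hb fun j => (hbT j).trans (Real.rpow_le_rpow_of_exponent_le hT1 (Nat.le_ceil κ))

end Pool.Agent.Results.MP_90c6bd_nt.SharpFormNearGivenPoints
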