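import Pool.Agent.Q84.NX.Few
import Pool.Agent.Results.MP_90c6bd_nt.AlmostAllRationals

/-!
# The sharp inequality of Lang for almost all tuples of rational numbers divisible by the primes of a string

Let `n ≥ 1`, `ε ≥ 0`, `A > 0`, `ρ ≥ 0`, `ω ≥ 0` with `2 A (n - 1) + ρ n < 1 + ω`. There is `c > 0`, for all `κ > 0` and `m`
there is `c' > 0` and for every `Z` a number `D` with the following property. For every large `X` there is a set `S` of at
most `(log X) ^ (49 / 50)` primes, all larger than `Z`, such that for EVERY function `f` with values `1` and `-1` on the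
primes at least `X ^ (1 - κ)` integers `n'`, `X < n' ≤ 3X`, satisfy: the interval `[n', n' + D]` contains at least `m`
primes, and for every prime `p` in it

* the Legendre symbol `(p / q)` is `f q` for all odd primes `q ≤ c' log X` outside `S`;
* for EVERY natural number `r` within `p ^ c` of a positive multiple of `p` (for instance `r = p`), all but at most
  `p ^ ω` of the `n`-tuples `a` of positive rational numbers of height `≤ p ^ A` such that `r` divides the product of the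
  numerators and denominators of the `a_i` satisfy the inequality of the question, with `C = 1 / 8`, for all integers
  `b_i`, not all zero, of absolute value at most `p ^ ρ`.

Method: the starting result `AlmostAllRationals` counts the exceptional tuples; the divisor bound; few primes have near
one of their multiples a number which divides many exceptional products (`Q84/NX/Few`); the Maynard-Tao theorem relative
to a modulus which is a small power of `X`, in the form that it avoids arbitrary exceptional sets of size `X ^ (1 - η)`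
(`Q84/MB/E1-E4`), gives the strings.
-/

set_option autoImplicit false

open scoped Classical

namespace Pool.Agent.Results.MP_90c6bd_nt.StringsOfPrimes

open Finset Filter
open Pool.Agent.Results.MP_90c6bd_nt.AlmostAllRationals (hgt Lam maxB prodBA Rats Exceptional)

/-- the `n`-tuples of positive rational numbers of height at most `H` for which the inequality of the question fails, with
`C = 1 / 8`, for some integers `b_i`, not all zero, of absolute value at most `T` -/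
def Exc (n : ℕ) (ε H T : ℝ) : Set (Fin n → ℚ) :=
  {a | (∀ i, 0 < a i ∧ (hgt (a i) : ℝ) ≤ H) ∧ ∃ b : Fin n → ℤ, b ≠ 0 ∧ (∀ i, ((b i).natAbs : ℝ) ≤ T) ∧
    |Lam a b| ≤ 1 / 8 * (maxB b : ℝ) / (prodBA a b : ℝ) ^ (1 + ε)}

/-- the product of the numerators and denominators -/
def nd {n : ℕ} (a : Fin n → ℚ) : ℕ := ∏ i, (a i).num.natAbs * (a i).den

/-- for every `r` within `p ^ c` of a positive multiple of `p`, at most `p ^ ω` of the `n`-tuples of positive rational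
numbers of height `≤ p ^ A` with `r ∣ nd a` violate the inequality for some integers `b_i` of absolute value `≤ p ^ ρ` -/
def Fine (n : ℕ) (ε A ρ ω c : ℝ) (p : ℕ) : Prop :=
  ∀ k r : ℕ, 1 ≤ k → |(r : ℝ) - k * p| ≤ (p : ℝ) ^ c →
    ({a : Fin n → ℚ | a ∈ Exc n ε ((p : ℝ) ^ A) ((p : ℝ) ^ ρ) ∧ r ∣ nd a}.ncard : ℝ) ≤ (p : ℝ) ^ ω

/-- the number of positive rational numbers of height at most `N` -/
theorem rats_card (N : ℕ) : (Rats N).ncard ≤ N ^ 2 := by
  have hmap : Set.MapsTo (fun x : ℚ => (x.num.natAbs, x.den)) (Rats N) (((Icc 1 N) ×ˢ (Icc 1 N) : Finset (ℕ × ℕ)) : Set (ℕ × ℕ)) := by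
    rintro x ⟨hx0, hx⟩
    have h1 : x.num.natAbs ≤ N := (le_max_left _ _).trans hx
    have h2 : x.den ≤ N := (le_max_right _ _).trans hx
    have h3 : 0 < x.num := Rat.num_pos.2 hx0
    rw [mem_coe, mem_product, mem_Icc, mem_Icc]
    exact ⟨⟨Int.natAbs_pos.2 h3.ne', h1⟩, x.den_pos, h2⟩
  have hinj : Set.InjOn (fun x : ℚ => (x.num.natAbs, x.den)) (Rats N) := by
    rintro x ⟨hx0, -⟩ y ⟨hy0, -⟩ h
    simp only [Prod.mk.injEq] at h
    have h1 : 0 < x.num := Rat.num_pos.2 hx0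
    have h2 : 0 < y.num := Rat.num_pos.2 hy0
    exact Rat.ext (by omega) h.2
  have h := Set.ncard_le_ncard_of_injOn _ hmap hinj (finite_toSet _)
  rw [Set.ncard_coe_finset, card_product, Nat.card_Icc, Nat.add_sub_cancel] at h
  rw [pow_two]
  exact h

/-- **Theorem.** -/
theorem result (n : ℕ) (hn : 1 ≤ n) (ε A ρ ω : ℝ) (hε : 0 ≤ ε) (hA : 0 < A) (hρ : 0 ≤ ρ) (hω : 0 ≤ ω)
    (hlt : 2 * A * ((n : ℝ) - 1) + ρ * n < 1 + ω) : ∃ c : ℝ, 0 < c ∧
    ∀ κ : ℝ, 0 < κ → ∀ m : ℕ, ∃ c' : ℝ, 0 < c' ∧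
    ∀ Z : ℕ, ∃ D : ℕ, ∃ X₀ : ℝ, ∀ X : ℝ, X₀ ≤ X →
    ∃ S : Finset ℕ, (∀ q ∈ S, q.Prime ∧ Z < q) ∧ (S.card : ℝ) ≤ (Real.log X) ^ (49 / 50 : ℝ) ∧
    ∀ f : ℕ → ℤ, (∀ q, f q = 1 ∨ f q = -1) →
      X ^ (1 - κ) ≤ (((Icc 1 ⌊3 * X⌋₊).filter fun n' : ℕ => X < n' ∧
        m ≤ ((Icc n' (n' + D)).filter Nat.Prime).card ∧
        ∀ p ∈ Icc n' (n' + D), p.Prime → Fine n ε A ρ ω c p ∧
          ∀ q : ℕ, q.Prime → q ≠ 2 → (q : ℝ) ≤ c' * Real.log X → q ∉ S → jacobiSym p q = f q).card : ℝ) := by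
  have hn1 : (1 : ℝ) ≤ n := by exact_mod_cast hn
  obtain ⟨s, hs⟩ : ∃ s, s = 1 + ω - (2 * A * ((n : ℝ) - 1) + ρ * n) := ⟨_, rfl⟩
  have hs0 : 0 < s := by rw [hs]; linarith
  obtain ⟨σ, hσ⟩ : ∃ σ, σ = s / (2 * A) := ⟨_, rfl⟩
  have hσ0 : 0 < σ := by rw [hσ]; positivity
  have hAσ : A * σ = s / 2 := by
    rw [hσ]
    field_simp
  obtain ⟨γ, hγ⟩ : ∃ γ, γ = ρ * n + (A * σ + A * (2 * ((n : ℝ) - 1))) := ⟨_, rfl⟩
  have hγ0 : 0 ≤ γ := by
    rw [hγ]
    have : 0 ≤ (n : ℝ) - 1 := by linarith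
    positivity
  have hγlt : 1 * γ < 1 + ω := by
    rw [one_mul, hγ, hAσ]
    linarith
  obtain ⟨J, hJ⟩ := exists_nat_ge (2 * A * n)
  obtain ⟨E, hE⟩ : ∃ E : ℝ → Set (Fin n → ℚ), E = fun P : ℝ => {a | 1 ≤ P ∧ a ∈ Exc n ε (P ^ A) (P ^ ρ)} := ⟨_, rfl⟩
  have hmono : ∀ P P' : ℝ, P ≤ P' → E P ⊆ E P' := by
    intro P P' hPP a ha
    rw [hE] at ha ⊢
    obtain ⟨h1, h2, b, h3, h4, h5⟩ := ha
    have h6 : P ^ A ≤ P' ^ A := Real.rpow_le_rpow (by linarith) hPP hA.le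
    have h7 : P ^ ρ ≤ P' ^ ρ := Real.rpow_le_rpow (by linarith) hPP hρ
    exact ⟨h1.trans hPP, fun i => ⟨(h2 i).1, (h2 i).2.trans h6⟩, b, h3, fun i => (h4 i).trans h7, h5⟩
  have hsize : ∀ P : ℝ, 1 ≤ P → ∀ a ∈ E P, 1 ≤ nd a ∧ (nd a : ℝ) ≤ P ^ (J + 1) := by
    intro P hP a ha
    rw [hE] at ha
    obtain ⟨h1, h2, -⟩ := ha
    constructor
    · refine Nat.one_le_iff_ne_zero.2 (prod_ne_zero_iff.2 fun i _ => mul_ne_zero ?_ (a i).den_nz)
      have h3 : 0 < (a i).num := Rat.num_pos.2 (h2 i).1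
      omega
    · unfold nd
      push_cast
      have h3 : ∀ i ∈ (univ : Finset (Fin n)), ((a i).num.natAbs : ℝ) * (a i).den ≤ P ^ (2 * A) := by
        intro i _
        have h4 : ((hgt (a i) : ℕ) : ℝ) ≤ P ^ A := (h2 i).2
        have h5 : ((a i).num.natAbs : ℝ) ≤ P ^ A := le_trans (by exact_mod_cast le_max_left _ _) h4
        have h6 : ((a i).den : ℝ) ≤ P ^ A := le_trans (by exact_mod_cast le_max_right _ _) h4
        calc ((a i).num.natAbs : ℝ) * (a i).den ≤ P ^ A * P ^ A := mul_le_mul h5 h6 (by positivity) (by positivity)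
          _ = P ^ (2 * A) := by rw [← Real.rpow_add (by linarith)]; congr 1; ring
      calc ∏ i, ((a i).num.natAbs : ℝ) * (a i).den ≤ ∏ _i : Fin n, P ^ (2 * A) :=
            prod_le_prod (fun i _ => by positivity) h3
        _ = (P ^ (2 * A)) ^ n := by rw [prod_const, card_univ, Fintype.card_fin]
        _ = P ^ (2 * A * n) := by rw [← Real.rpow_natCast (P ^ (2 * A)) n, ← Real.rpow_mul (by linarith)]
        _ ≤ P ^ ((J + 1 : ℕ) : ℝ) := Real.rpow_le_rpow_of_exponent_le hP (by push_cast; linarith)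
        _ = P ^ (J + 1) := Real.rpow_natCast P (J + 1)
  obtain ⟨C, hC⟩ : ∃ C : ℝ, C = 3 ^ n * (1 / (σ * Real.log 2) + 1) := ⟨_, rfl⟩
  have hl2 : 0 < Real.log 2 := Real.log_pos (by norm_num)
  have hcount : ∀ P : ℝ, 1 ≤ P → (E P).Finite ∧ ((E P).ncard : ℝ) ≤ C * P ^ γ := by
    intro P hP
    have hP0 : 0 < P := by linarith
    have hPA : 1 ≤ P ^ A := Real.one_le_rpow hP hA.le
    have hPρ : 1 ≤ P ^ ρ := Real.one_le_rpow hP hρ
    obtain ⟨N, hN⟩ : ∃ N, N = ⌊P ^ A⌋₊ := ⟨_, rfl⟩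
    obtain ⟨T, hT⟩ : ∃ T, T = ⌊P ^ ρ⌋₊ := ⟨_, rfl⟩
    have hN1 : 1 ≤ N := by rw [hN]; exact Nat.le_floor (by exact_mod_cast hPA)
    have hNr : (N : ℝ) ≤ P ^ A := by rw [hN]; exact Nat.floor_le (by linarith)
    have hTr : (T : ℝ) ≤ P ^ ρ := by rw [hT]; exact Nat.floor_le (by linarith)
    have hN1r : (1 : ℝ) ≤ N := by exact_mod_cast hN1
    have hEq : E P = Exceptional n N T ε := by
      rw [hE]
      ext a
      constructor
      · rintro ⟨-, h2, b, h3, h4, h5⟩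
        refine ⟨fun i => ⟨(h2 i).1, ?_⟩, b, h3, fun i => ?_, h5⟩
        · rw [hN]
          exact Nat.le_floor (h2 i).2
        · rw [hT]
          exact Nat.le_floor (h4 i)
      · rintro ⟨h2, b, h3, h4, h5⟩
        refine ⟨hP, fun i => ⟨(h2 i).1, ?_⟩, b, h3, fun i => ?_, h5⟩
        · refine le_trans ?_ hNr
          exact_mod_cast (h2 i).2
        · refine le_trans ?_ hTr
          exact_mod_cast h4 i
    obtain ⟨h1, h2, h3⟩ := AlmostAllRationals.result n N T hn ε hε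
    rw [hEq]
    refine ⟨h2, ?_⟩
    have h4 : ((Exceptional n N T ε).ncard : ℝ) ≤
        (2 * (T : ℝ) + 1) ^ n * (((Nat.log 2 N : ℕ) + 1) * ((Rats N).ncard : ℝ) ^ (n - 1)) := by exact_mod_cast h3
    have h5 : (2 * (T : ℝ) + 1) ^ n ≤ 3 ^ n * P ^ (ρ * n) := by
      calc (2 * (T : ℝ) + 1) ^ n ≤ (3 * P ^ ρ) ^ n := pow_le_pow_left₀ (by positivity) (by linarith) n
        _ = 3 ^ n * P ^ (ρ * n) := by rw [mul_pow, ← Real.rpow_natCast (P ^ ρ) n, ← Real.rpow_mul hP0.le]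
    have h6 : ((Nat.log 2 N : ℕ) : ℝ) + 1 ≤ (1 / (σ * Real.log 2) + 1) * P ^ (A * σ) := by
      have h7 : ((Nat.log 2 N : ℕ) : ℝ) ≤ Real.logb 2 N := Real.natLog_le_logb N 2
      have h8 : Real.log N ≤ (N : ℝ) ^ σ / σ := Real.log_le_rpow_div (by linarith) hσ0
      have h9 : (N : ℝ) ^ σ ≤ P ^ (A * σ) := by
        rw [Real.rpow_mul hP0.le]
        exact Real.rpow_le_rpow (by linarith) hNr hσ0.le
      have h10 : 1 ≤ P ^ (A * σ) := Real.one_le_rpow hP (by positivity)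
      have h11 : Real.logb 2 N ≤ 1 / (σ * Real.log 2) * P ^ (A * σ) := by
        rw [Real.logb, div_le_iff₀ hl2]
        calc Real.log N ≤ (N : ℝ) ^ σ / σ := h8
          _ ≤ P ^ (A * σ) / σ := by gcongr
          _ = 1 / (σ * Real.log 2) * P ^ (A * σ) * Real.log 2 := by field_simp
      nlinarith
    have h12 : ((Rats N).ncard : ℝ) ^ (n - 1) ≤ P ^ (A * (2 * ((n : ℝ) - 1))) := by
      have h13 : ((Rats N).ncard : ℝ) ≤ P ^ (2 * A) := by
        calc ((Rats N).ncard : ℝ) ≤ (N : ℝ) ^ 2 := by exact_mod_cast rats_card N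
          _ ≤ (P ^ A) ^ 2 := pow_le_pow_left₀ (by linarith) hNr 2
          _ = P ^ (2 * A) := by
            rw [← Real.rpow_natCast (P ^ A) 2, ← Real.rpow_mul hP0.le]
            congr 1
            push_cast
            ring
      calc ((Rats N).ncard : ℝ) ^ (n - 1) ≤ (P ^ (2 * A)) ^ (n - 1) := pow_le_pow_left₀ (Nat.cast_nonneg _) h13 _
        _ = P ^ (A * (2 * ((n : ℝ) - 1))) := by
          rw [← Real.rpow_natCast (P ^ (2 * A)) (n - 1), ← Real.rpow_mul hP0.le]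
          congr 1
          rw [Nat.cast_sub hn]
          push_cast
          ring
    have h14 : 0 ≤ 1 / (σ * Real.log 2) + 1 := by positivity
    calc ((Exceptional n N T ε).ncard : ℝ)
        ≤ (2 * (T : ℝ) + 1) ^ n * (((Nat.log 2 N : ℕ) + 1) * ((Rats N).ncard : ℝ) ^ (n - 1)) := h4
      _ ≤ (3 ^ n * P ^ (ρ * n)) * (((1 / (σ * Real.log 2) + 1) * P ^ (A * σ)) * P ^ (A * (2 * ((n : ℝ) - 1)))) := by
          apply mul_le_mul h5 _ (by positivity) (by positivity)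
          exact mul_le_mul h6 h12 (by positivity) (by positivity)
      _ = C * (P ^ (ρ * n) * (P ^ (A * σ) * P ^ (A * (2 * ((n : ℝ) - 1))))) := by rw [hC]; ring
      _ = C * P ^ γ := by rw [← Real.rpow_add hP0, ← Real.rpow_add hP0, hγ]
  obtain ⟨c, hc, hc4, hmain⟩ := Pool.Agent.Q84.NX.few_strings E hmono nd (J + 1) (by omega) 1 hsize 1 γ C ω one_pos hγ0
    hω hγlt hcount
  refine ⟨c, hc, fun κ hκ m => ?_⟩
  obtain ⟨c', hc', h⟩ := hmain κ hκ m
  refine ⟨c', hc', fun Z => ?_⟩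
  obtain ⟨D, X₀, hX₀⟩ := h Z
  refine ⟨D, X₀, fun X hX => ?_⟩
  obtain ⟨S, hS1, hS2, hS3⟩ := hX₀ X hX
  refine ⟨S, hS1, hS2, fun f hf => (hS3 f hf).trans ?_⟩
  rw [Nat.cast_le]
  apply card_le_card
  intro n' hn'
  rw [mem_filter] at hn' ⊢
  obtain ⟨hn'1, hn'2, hn'3, hn'4⟩ := hn'
  refine ⟨hn'1, hn'2, hn'3, fun p hp hpp => ⟨?_, (hn'4 p hp hpp).2⟩⟩
  have hgood := (hn'4 p hp hpp).1
  have hp1 : (1 : ℝ) ≤ p := by exact_mod_cast hpp.one_lt.le
  intro k r hk hkr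
  have h1 := hgood k r hk hkr
  rw [hE, Real.rpow_one] at h1
  have h2 : {a : Fin n → ℚ | a ∈ Exc n ε ((p : ℝ) ^ A) ((p : ℝ) ^ ρ) ∧ r ∣ nd a} =
      {t | t ∈ (fun P : ℝ => {a | 1 ≤ P ∧ a ∈ Exc n ε (P ^ A) (P ^ ρ)}) (p : ℝ) ∧ r ∣ nd t} := by
    ext a
    constructor
    · rintro ⟨h3, h4⟩
      exact ⟨⟨hp1, h3⟩, h4⟩
    · rintro ⟨⟨-, h3⟩, h4⟩
      exact ⟨h3, h4⟩
  rw [h2]
  exact h1

end Pool.Agent.Results.MP_90c6bd_nt.StringsOfPrimes
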